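import Pool.Agent.Q5.VA.Dat

/-!
# The order of vanishing of the `L`-function of `h^{2m-1}(X)(m)` and the partial Euler products at the centre

Let `X` be a smooth projective variety of dimension `d` over a number field `K`, given by homogeneous
polynomials over `𝓞 K`, and `1 ≤ m`, `2 m - 1 ≤ 2 d`. The motive `M = h^{2m-1}(X)(m)` is polarized, and
`L(s, M) = L(H^{2m-1}(X), s + m)`. Let `S` be a finite set of primes such that for `v ∉ S` the eigenvalues
`α_{v,1}, …, α_{v,N}` of the Frobenius on `H^{2m-1}(X)` are given by the numbers of points of `X` over the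
finite extensions of the residue field (by the theorem of Deligne this is so if `S` contains the primes of
bad reduction). Put

`P(y) = ∏_{v ∉ S, q_v ≤ y} |∏_j (1 - α_{v,j} q_v^{-m})|`,

the partial products of the reciprocal Euler product at the centre, with the sharp cut-off (for an elliptic curve
and `m = 1` this is the original product `∏ N_v / q_v` of Birch and Swinnerton-Dyer), and

`P*(y) = exp (- ∑_{v ∉ S, q_v^k ≤ y} tr (Frob_v^k | H^{2m-1}(X)) / (k q_v^{mk}))`,

the product with the prime powers. Assume that the incomplete `L`-function `∏_{v ∉ S} ∏_j (1 - α_{v,j} q_v^{-s})⁻¹`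
has a continuation `F` to a half plane `Re s > m - η`, analytic except perhaps for a pole at `s = m`, of polynomial
growth. Then for every real `ρ` the following are EQUIVALENT:

* `ord_{s=m} F = ρ`, and `F` has no zeros with `Re s > m` (the Riemann hypothesis for `H^{2m-1}(X)`);
* `∫_e^Y |log P(y) - ρ log log y| dy/y ≤ B log Y` for some `B` and all large `Y`;
* `∫_e^∞ (log (A P*(y) / (e^γ log y)^ρ))² dy/y < ∞` for some `A > 0`.

With `ρ = dim H^1_f(K, M_p) - dim H^0(K, M_p)`: the formula of Bloch and Kato for the order of vanishing of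
`L(s, M)` at `s = 0`, together with the Riemann hypothesis for `M`, is a statement on the numbers of points of
`X` over finite fields: that `log P(y) - ρ log log y` is bounded in logarithmic mean. (The Euler factors at the
primes of `S` do not change the order at `m`, nor the zeros with `Re s > m`, if the weights of the invariants of
inertia are at most `2 m - 1`.)

The proof is for arbitrary Euler products over a system of primes (`Pool.Agent.Q5.MS`), based on
`Pool.Agent.TH270.MS` (Plancherel's theorem for `log L(m + s)/s` up to the central line, helper270) and on the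
local theory of `Pool.Agent.TH942.ES` (helper942). The definition of the Frobenius eigenvalues is that of
`Pool.Agent.TH958.BV.Defs` (helper958), their uniqueness is from `Pool.Agent.W353.PV.Eig`.
-/

set_option autoImplicit false

namespace Pool.Agent.Results.MP_ec4e4b_nt.MeanProductOrder

open Filter Topology Set Complex NumberField IsDedekindDomain MeasureTheory

variable {n : ℕ}

/-- The set `X` of homogeneous polynomials over a ring `R` in `n` variables defines a projective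
scheme over `R`.  For a field `κ` with `q` elements and a homomorphism `R → κ` this is `(q - 1)`
times the number of the points of `X` with coordinates in `κ`: the number of the nonzero solutions
of the equations. -/
noncomputable def cone {R : Type} [CommRing R] (X : Set (MvPolynomial (Fin n) R)) {κ : Type}
    [Field κ] (φ : R →+* κ) : ℕ :=
  Nat.card {u : Fin n → κ // u ≠ 0 ∧ ∀ f ∈ X, MvPolynomial.eval₂ φ u f = 0}

variable {K : Type} [Field K] [NumberField K]

/-- `α_1, …, α_N` are the eigenvalues of the geometric Frobenius at the prime `v` of `K` on `H^i(X)`,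
for a variety `X` of dimension `d`: there are finite multisets `β_j` of complex numbers of absolute
value `q_v^{j/2}`, `j = 0, …, 2d`, with `β_i = {α_1, …, α_N}`, such that for every finite extension
`κ` of the residue field of `v`, of degree `e`, the number of the points of `X` with coordinates in
`κ` is `∑ (-1)^j ∑_{z ∈ β_j} z^e`.  By the theorem of Deligne such `β_j` exist at the primes of good
reduction, with `N` the `i`-th Betti number of `X`; they are unique. -/
def IsFrobenius (X : Set (MvPolynomial (Fin n) (𝓞 K))) (d i : ℕ)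
    (v : HeightOneSpectrum (𝓞 K)) {N : ℕ} (α : Fin N → ℂ) : Prop :=
  ∃ β : ℕ → Multiset ℂ, β i = Finset.univ.val.map α ∧
    (∀ j, ∀ z ∈ β j, ‖z‖ = (Ideal.absNorm v.asIdeal : ℝ) ^ ((j : ℝ) / 2)) ∧
    ∀ (κ : Type) [Field κ] [Finite κ] (φ : 𝓞 K →+* κ) (e : ℕ), RingHom.ker φ = v.asIdeal →
      Nat.card κ = Ideal.absNorm v.asIdeal ^ e →
      (cone X φ : ℂ) = ((Ideal.absNorm v.asIdeal : ℂ) ^ e - 1) *
          ∑ j ∈ Finset.range (2 * d + 1), (-1 : ℂ) ^ j * ((β j).map (fun z => z ^ e)).sum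

/-- The norm `q_v`. -/
noncomputable def norm (v : HeightOneSpectrum (𝓞 K)) : ℕ := Ideal.absNorm v.asIdeal

/-- For all primes `v` outside of the finite set `S`, the `α v j` are the eigenvalues of the
Frobenius on `H^i(X)`. -/
def IsLocal (X : Set (MvPolynomial (Fin n) (𝓞 K))) (d i : ℕ) {N : ℕ}
    (S : Finset (HeightOneSpectrum (𝓞 K))) (α : HeightOneSpectrum (𝓞 K) → Fin N → ℂ) : Prop :=
  ∀ v : HeightOneSpectrum (𝓞 K), v ∉ S → IsFrobenius X d i v (α v)

variable {N : ℕ}

/-- `F` is a continuation of the incomplete `L`-function `∏_{v ∉ S} ∏_j (1 - α_{v,j} q_v^{-s})⁻¹`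
(`Re s > m + 1/2`) to a half plane `Re s > m - η`: for some `k` the function `(s - m)^k F(s)` is analytic and
of polynomial growth there. -/
def Tempered (m : ℕ) (S : Finset (HeightOneSpectrum (𝓞 K)))
    (α : HeightOneSpectrum (𝓞 K) → Fin N → ℂ) (F : ℂ → ℂ) : Prop :=
  (∃ (η C : ℝ) (k κ : ℕ) (G : ℂ → ℂ), 0 < η ∧
    (∀ s : ℂ, m - η < s.re → DifferentiableAt ℂ G s ∧ ‖G s‖ ≤ C * (1 + ‖s‖) ^ κ) ∧
    ∀ s : ℂ, m - η < s.re → s ≠ m → G s = (s - m) ^ k * F s) ∧
  ∀ s : ℂ, (m : ℝ) + 1 / 2 < s.re →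
    HasProd (fun v : {v : HeightOneSpectrum (𝓞 K) // v ∉ S} =>
      (∏ j, (1 - α v.1 j * (norm v.1 : ℂ) ^ (-s)))⁻¹) (F s)

/-- The primes `v` outside of `S` with `q_v ≤ y`. -/
def upTo (S : Finset (HeightOneSpectrum (𝓞 K))) (y : ℝ) : Set (HeightOneSpectrum (𝓞 K)) :=
  {v | v ∉ S ∧ (norm v : ℝ) ≤ y}

/-- `P(y) = ∏_{v ∉ S, q_v ≤ y} |∏_j (1 - α_{v,j} q_v^{-m})|`, a finite product. -/
noncomputable def product (m : ℕ) (S : Finset (HeightOneSpectrum (𝓞 K)))
    (α : HeightOneSpectrum (𝓞 K) → Fin N → ℂ) (y : ℝ) : ℝ :=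
  ∏ᶠ v ∈ upTo S y, ‖∏ j, (1 - α v j * (norm v : ℂ) ^ (-(m : ℂ)))‖

/-- `P*(y) = exp (- ∑_{v ∉ S, q_v^k ≤ y} tr (Frob_v^k) / (k q_v^{mk}))`, the (finite) sum over the pairs `(v, k)`,
`v` a prime outside of `S`, `k = p.2 + 1 ≥ 1`, with `q_v^k ≤ y`; the traces `∑_j α_{v,j}^k` are real. -/
noncomputable def productStar (m : ℕ) (S : Finset (HeightOneSpectrum (𝓞 K)))
    (α : HeightOneSpectrum (𝓞 K) → Fin N → ℂ) (y : ℝ) : ℝ :=
  Real.exp (-∑ᶠ (p : {v : HeightOneSpectrum (𝓞 K) // v ∉ S} × ℕ)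
    (_ : (norm p.1.1 : ℝ) ^ (p.2 + 1) ≤ y),
      (∑ j, α p.1.1 j ^ (p.2 + 1)).re /
        (((p.2 : ℝ) + 1) * ((norm p.1.1 : ℝ) ^ m) ^ (p.2 + 1)))

/-- `ord_{s=m} F = ρ`, and `F` has no zeros with `Re s > m`. -/
def OrderRH (m : ℕ) (F : ℂ → ℂ) (ρ : ℝ) : Prop :=
  (∃ e : ℤ, ρ = e ∧ meromorphicOrderAt F m = e) ∧ ∀ s : ℂ, (m : ℝ) < s.re → F s ≠ 0

/-! ### translation -/

open Pool.Agent.TH942.ES (zv xv cv cP Sys)
open Pool.Agent.H921R2.TatePole (nm two_le_nm)
open Pool.Agent.TH270.MS (Pl Mc DvR)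
open Pool.Agent.Q5.MS (Pv)
open Pool.Agent.Q5.VA (NS aD)

variable {X : Set (MvPolynomial (Fin n) (𝓞 K))} {d m : ℕ}
  {S : Finset (HeightOneSpectrum (𝓞 K))} {α : HeightOneSpectrum (𝓞 K) → Fin N → ℂ} {F : ℂ → ℂ}

theorem centre (hm : 1 ≤ m) : (m : ℝ) = (((2 * m - 1 : ℕ) : ℝ) + 1) / 2 := by
  rw [Nat.cast_sub (by omega)]
  push_cast
  ring

theorem frob {i : ℕ} (h : IsLocal X d i S α) : Q5.VA.Frob X d i S α := h

theorem cpow_m (m : ℕ) (v : HeightOneSpectrum (𝓞 K)) :
    ((((nm v : ℝ) ^ (-(m : ℝ)) : ℝ) : ℝ) : ℂ) = (norm v : ℂ) ^ (-(m : ℂ)) := by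
  have hp2 : (2 : ℝ) ≤ nm v := by exact_mod_cast two_le_nm v
  have h1 : (norm v : ℂ) = (nm v : ℂ) := rfl
  rw [h1, Complex.ofReal_cpow (by linarith)]
  push_cast
  rfl

theorem log_star (hm : 1 ≤ m) (y : ℝ) :
    Real.log (productStar m S α y) = -Pl (NS S) (aD (2 * m - 1) S α) y := by
  unfold productStar Pl
  rw [Real.log_exp]
  congr 1
  refine finsum_congr fun p => finsum_congr fun _ => ?_
  rw [Q5.VA.cP_D (m : ℝ) (centre hm) p, Real.rpow_natCast]
  rfl

theorem star_pos (y : ℝ) : 0 < productStar m S α y := Real.exp_pos _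

theorem log_product (hm : 1 ≤ m) (hd : 2 * m - 1 ≤ 2 * d) (h : IsLocal X d (2 * m - 1) S α)
    (y : ℝ) : Real.log (product m S α y) = Pv (NS S) (aD (2 * m - 1) S α) y := by
  classical
  have E := (frob h).sys hd
  have hcv : ∀ v : {v : HeightOneSpectrum (𝓞 K) // v ∉ S},
      cv (NS S) (aD (2 * m - 1) S α) v =
        Real.log ‖∏ j, (1 - α v.1 j * (norm v.1 : ℂ) ^ (-(m : ℂ)))‖ := by
    intro v
    rw [(frob h).cv_eq v, ← centre hm, cpow_m]
  have hne : ∀ v : {v : HeightOneSpectrum (𝓞 K) // v ∉ S},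
      ‖∏ j, (1 - α v.1 j * (norm v.1 : ℂ) ^ (-(m : ℂ)))‖ ≠ 0 := by
    intro v
    rw [norm_ne_zero_iff, Finset.prod_ne_zero_iff]
    intro j _ h0
    have h1 := (frob h).lt_one v j
    rw [← centre hm, cpow_m, ← sub_eq_zero.1 h0, norm_one] at h1
    exact lt_irrefl _ h1
  have hfin : (upTo S y).Finite := by
    have h1 := (E.fin_le y).image Subtype.val
    refine h1.subset fun v hv => ?_
    exact ⟨⟨v, hv.1⟩, hv.2, rfl⟩
  have h2 : product m S α y =
      ∏ v ∈ hfin.toFinset, ‖∏ j, (1 - α v j * (norm v : ℂ) ^ (-(m : ℂ)))‖ :=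
    finprod_mem_eq_finite_toFinset_prod _ hfin
  rw [h2, Real.log_prod]
  · rw [Pool.Agent.Q5.MS.pv_eq E]
    refine Finset.sum_bij' (i := fun v hv => ⟨v, ((Set.Finite.mem_toFinset _).1 hv).1⟩)
      (j := fun v _ => v.1) ?_ ?_ ?_ ?_ ?_
    · intro v hv
      rw [Set.Finite.mem_toFinset] at hv ⊢
      exact hv.2
    · intro v hv
      rw [Set.Finite.mem_toFinset] at hv ⊢
      exact ⟨v.2, hv⟩
    · intro v hv
      rfl
    · intro v hv
      rfl
    · intro v hv
      exact (hcv ⟨v, ((Set.Finite.mem_toFinset _).1 hv).1⟩).symm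
  · intro v hv
    rw [Set.Finite.mem_toFinset] at hv
    exact hne ⟨v, hv.1⟩

theorem tempered (hm : 1 ≤ m) (hF : Tempered m S α F) :
    Q5.VA.TemperedAt (m : ℝ) (NS S) (aD (2 * m - 1) S α) F := by
  have hmc : ((m : ℝ) : ℂ) = (m : ℂ) := by push_cast; rfl
  obtain ⟨h1, h2⟩ := hF
  unfold Q5.VA.TemperedAt
  rw [hmc]
  refine ⟨h1, fun s hs => (h2 s hs).congr_fun fun v => ?_⟩
  have h3 := Q5.VA.factorD (i := 2 * m - 1) (S := S) (α := α) v s
  rw [← centre hm, hmc] at h3
  exact h3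

theorem dev_eq (hm : 1 ≤ m) {ρ A y : ℝ} (hA : 0 < A) (hy : Real.exp 1 ≤ y) :
    Real.log (A * productStar m S α y / (Real.exp Real.eulerMascheroniConstant * Real.log y) ^ ρ) =
      -DvR (NS S) (aD (2 * m - 1) S α) ρ A y := by
  have hl : 0 < Real.log y := by linarith [Pool.Agent.TH270.MS.one_le_log hy]
  have h1 : 0 < Real.exp Real.eulerMascheroniConstant * Real.log y :=
    mul_pos (Real.exp_pos _) hl
  have h2 := Real.rpow_pos_of_pos h1 ρ
  rw [Real.log_div (mul_pos hA (star_pos y)).ne' h2.ne', Real.log_mul hA.ne'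
    (star_pos y).ne', log_star hm, Real.log_rpow h1, Real.log_mul (Real.exp_pos _).ne' hl.ne',
    Real.log_exp]
  unfold DvR
  ring

/-- **The order of vanishing and the partial Euler products at the centre.** -/
theorem result (K : Type) [Field K] [NumberField K] (n : ℕ)
    (X : Set (MvPolynomial (Fin n) (𝓞 K))) (d m N : ℕ) (hm : 1 ≤ m) (hd : 2 * m - 1 ≤ 2 * d)
    (S : Finset (HeightOneSpectrum (𝓞 K))) (α : HeightOneSpectrum (𝓞 K) → Fin N → ℂ)
    (hα : IsLocal X d (2 * m - 1) S α) (F : ℂ → ℂ) (hF : Tempered m S α F) (ρ : ℝ) :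
    List.TFAE [
      OrderRH m F ρ,
      ∃ B : ℝ, ∀ᶠ Y : ℝ in atTop,
        ∫ y in Real.exp 1..Y, |Real.log (product m S α y) - ρ * Real.log (Real.log y)| / y ≤
          B * Real.log Y,
      ∃ A : ℝ, 0 < A ∧ IntegrableOn (fun y : ℝ => Real.log (A * productStar m S α y /
        (Real.exp Real.eulerMascheroniConstant * Real.log y) ^ ρ) ^ 2 / y) (Ioi (Real.exp 1))] := by
  have hmc : ((m : ℝ) : ℂ) = (m : ℂ) := by push_cast; rfl
  have E := (frob hα).sys hd
  obtain ⟨G₀, k, κ, η, C, H⟩ := Q5.VA.temp_data E ((frob hα).real hd) (tempered hm hF)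
  have t := Pool.Agent.Q5.MS.order_real H ρ
  have h1 : OrderRH m F ρ ↔ ((∀ s : ℂ, 0 < s.re → F ((m : ℝ) + s) ≠ 0) ∧
      ∃ e : ℤ, ρ = e ∧ meromorphicOrderAt (fun s => F ((m : ℝ) + s)) 0 = e) := by
    rw [Q5.VA.mero_shiftC, Q5.VA.zeros_shiftC, hmc]
    exact and_comm
  have h2 : ∀ A : ℝ, 0 < A → (IntegrableOn (fun y : ℝ => Real.log (A * productStar m S α y /
      (Real.exp Real.eulerMascheroniConstant * Real.log y) ^ ρ) ^ 2 / y) (Ioi (Real.exp 1)) ↔
      IntegrableOn (fun Y : ℝ => DvR (NS S) (aD (2 * m - 1) S α) ρ A Y ^ 2 / Y)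
        (Ioi (Real.exp 1))) := by
    intro A hA
    refine integrableOn_congr_fun (fun y hy => ?_) measurableSet_Ioi
    rw [dev_eq hm hA (le_of_lt hy), neg_sq]
  simp only [log_product hm hd hα]
  tfae_have 1 ↔ 2 := by
    rw [h1]
    exact t.out 0 3
  tfae_have 1 ↔ 3 := by
    rw [h1]
    refine (t.out 0 1).trans (exists_congr fun A => and_congr_right fun hA => ?_)
    exact (h2 A hA).symm
  tfae_finish

end Pool.Agent.Results.MP_ec4e4b_nt.MeanProductOrder
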