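import Pool.Agent.Results.MP_32c55d_nt.MultiquadraticX049
import Pool.Agent.Q6.XM.ShaK
import Pool.Agent.Y667.BKK.Main

/-!
# The order of vanishing formula for `h¹(E)(1)` and `p = 2`, for the twists of `X_0(49)` over
# multiquadratic fields

`E_M` is the quadratic twist by `M` of the curve `X_0(49)`, which has complex multiplication by
`ℤ[(1 + √-7) / 2]`. The motive `N = h¹(E_M)(1)` over a number field `K` is polarized,
`L(s, N) = L(E_M/K, s + 1)` and `N_2 = V_2 E_M = T_2 E_M ⊗ ℚ_2`.

A pair `(M, K)`, `K = ℚ(√d_1, …, √d_n)` of degree `2ⁿ`, is good if for each of the `2ⁿ` products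
`M ∏_{i ∈ T} d_i` the squarefree part is a product of primes `≡ 1 mod 4` (admissible) without an
obstruction, an explicit condition with quadratic and quartic residue symbols (`GoodPair`). For all the
good pairs, with nothing assumed on ranks, `L`-values or Tate-Shafarevich groups:

* `H⁰(K, V_2 E_M) = 0` and `H¹_f(K, V_2 E_M) = 0`, and `E_M(K)` is finite, so that the Kummer
  (Abel-Jacobi) map `E_M(K) ⊗ ℚ_2 → H¹_f(K, V_2 E_M)` is an isomorphism;
* the `L`-function without the Euler factors at the places dividing `14 M ∏ d_i` is entire and `≠ 0`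
  at the centre;
* if `M` is admissible (for instance `M = 1`) the Euler product over all the finite places of `K` not
  dividing `7 M` - it is the complete `L`-function `L(E_M/K, s)` if `M` is prime to the `d_i`, since
  then `K/ℚ` is not ramified at the primes dividing `14 M`, the equation is minimal, with good reduction
  outside `7 M` and additive reduction at the places dividing `7 M` - continues analytically to
  `Re s > 1/2`, and its order of vanishing at the centre `s = 1` is
  `dim H¹_f(K, V_2 E_M) - dim H⁰(K, V_2 E_M) = 0`: the formula of the conjecture for `p = 2`.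

Exact proportions: let the class consist of the `D ≥ 1`, squarefree, whose prime factors are
`≡ 1 mod 8` and split in `ℚ(√-7)`, or `≡ 5 mod 8` and inert in `ℚ(√-7)`, and let the family be the
subset `D ≡ 1 mod 8`. For every `K = ℚ(√d_1, …, √d_n)` and `M` of the class, the pair `(M D, K)` is good
for exactly the proportion `c ^ (2ⁿ)` of the `D` of the family, where
`c = ∏_{i ≥ 0} (1 - 2^{-(2i+1)}) = 0.4194…`; and if `(M, K)` is good, then `(M, K(√D))` is good for
exactly the proportion `c ^ (2ⁿ)` of the `D` of the family. So for the fixed motive `h¹(X_0(49))(1)` the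
formula for `p = 2` holds over the fields `ℚ(√D)` for at least the proportion `c` of the `D` of the family,
and so on for towers of such fields.

`H1f` (`Pool.Agent.Y667.BKK.H1f`) is the group of the classes of the continuous cocycles of the absolute
Galois group with values in `V_2` whose restrictions to the completions at all the places are in the
images of the local Kummer maps; these are the local conditions of Bloch and Kato. An element of `V_2` is
described by a sequence of points (`Pool.Agent.Y667.BK.IsV`).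
-/

set_option autoImplicit false

open NumberField IsDedekindDomain WeierstrassCurve Filter Topology

namespace Pool.Agent.Results.MP_ec4e4b_nt.OrderFormulaX049

open Pool.Agent.Results.MP_32c55d_nt.MultiquadraticX049 (twist base short factor IsL Admissible Free
  GoodPair IsMultiquadratic InClass Independent prop c)
open Pool.Agent.TH841.SH.D (Gal act)
open Pool.Agent.Y667.BK (PSeq IsV)
open Pool.Agent.Y667.BKK (H1f)

/-- `H⁰(F, V_2 W) = 0`: the elements of `V_2 W` that are fixed by the Galois group are zero. -/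
def NoInvariants {F : Type} [Field F] (W : WeierstrassCurve F) : Prop :=
  ∀ x : PSeq W, IsV W x → (∀ (σ : Gal F) (n : ℕ), act W σ.toAlgHom (x n) = x n) → ∀ n, x n = 0

/-- `W(F)` is finite and the groups `H⁰(F, V_2 W)` and `H¹_f(F, V_2 W)` are zero. -/
def SelmerZero {F : Type} [Field F] [NumberField F] (W : WeierstrassCurve F) : Prop :=
  Finite W.toAffine.Point ∧ NoInvariants W ∧ ∀ x : H1f W, x = 0

/-- The formula for `h¹(E_M)(1)`, for `p = 2`, with both sides zero: the Euler product over the finite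
places of `K` not dividing `7 M` has an analytic continuation to `Re s > 1/2` whose order of vanishing at
the centre is zero, and `H⁰(K, V_2 E_M)` and `H¹_f(K, V_2 E_M)` are zero. -/
def Formula (K : Type) [Field K] [NumberField K] (M : ℕ) : Prop :=
  (∃ L : ℂ → ℂ, (∀ s : ℂ, 1 / 2 < s.re → AnalyticAt ℂ L s) ∧
    (∀ s : ℂ, 3 / 2 < s.re → HasProd (factor (K := K) M s) (L s)) ∧ analyticOrderAt L 1 = 0) ∧
  SelmerZero (short M K)

/-- The formula for `h¹(E_M)(1)`, for `p = 2`, with the `L`-function without the Euler factors at the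
places dividing `14 M m`. -/
def Formula' (K : Type) [Field K] [NumberField K] (M m : ℤ) : Prop :=
  (∃ L : ℂ → ℂ, IsL K M m L ∧ L 1 ≠ 0) ∧ SelmerZero (short M K)

section proof

/-- a finite group has an odd number times a power of two that kills it -/
lemma kill_two {A : Type} [AddCommGroup A] [Finite A] :
    ∃ a : ℕ, ∀ (x : A) (m : ℕ), (2 ^ m : ℕ) • x = 0 → (2 ^ a : ℕ) • x = 0 := by
  obtain ⟨a, b, hb, hab⟩ := Nat.exists_eq_two_pow_mul_odd (n := Nat.card A) Nat.card_pos.ne'
  refine ⟨a, fun x m hx => ?_⟩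
  have h1 : Nat.card A • x = 0 := card_nsmul_eq_zero'
  have h2 : addOrderOf x ∣ 2 ^ a * b := hab ▸ addOrderOf_dvd_of_nsmul_eq_zero h1
  have h3 : addOrderOf x ∣ 2 ^ m := addOrderOf_dvd_of_nsmul_eq_zero hx
  have h4 : Nat.Coprime (addOrderOf x) b :=
    Nat.Coprime.coprime_dvd_left h3 (Nat.Coprime.pow_left m hb.coprime_two_left)
  exact addOrderOf_dvd_iff_nsmul_eq_zero.1 (h4.dvd_of_dvd_mul_right h2)

lemma noInv {F : Type} [Field F] [NumberField F] {W : WeierstrassCurve F}
    (hfin : Finite W.toAffine.Point) : NoInvariants W := by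
  classical
  obtain ⟨j, hj, -, hr⟩ := Pool.Agent.Y667.BKK.exists_rat W
  obtain ⟨a, ha⟩ := kill_two (A := W.toAffine.Point)
  intro x hx hfix
  have key : ∀ n, (2 ^ a : ℕ) • x n = 0 := by
    intro n
    obtain ⟨q, hq⟩ := hr (x n) fun σ => hfix σ n
    obtain ⟨m, hm⟩ := (hx n).2
    have h1 : (2 ^ m : ℕ) • q = 0 := by
      apply hj
      rw [map_nsmul, hq, hm, map_zero]
    rw [← hq, ← map_nsmul, ha q m h1, map_zero]
  have hpow : ∀ n k : ℕ, (2 ^ k : ℕ) • x (n + k) = x n := by
    intro n k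
    induction k with
    | zero => rw [pow_zero, one_nsmul, add_zero]
    | succ k ih =>
      rw [pow_succ, mul_smul, two_nsmul, ← add_assoc, (hx (n + k)).1, ih]
  intro n
  rw [← hpow n a]
  exact key (n + a)

lemma selmer {n : ℕ} {M : ℤ} {d : Fin n → ℤ} (hd : GoodPair M d) (K : Type) [Field K]
    [NumberField K] (hK : IsMultiquadratic d K) : SelmerZero (short M K) := by
  obtain ⟨x, hx, hK⟩ := hK
  have h3 : Finite (short M K).toAffine.Point :=
    (Pool.Agent.Q6.XM.field_inc hd.1 hd.2 K x hx hK).2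
  have h4 := (Pool.Agent.Q6.XM.sha_field hd.1 hd.2 K hx hK).2
  exact ⟨h3, noInv h3, Pool.Agent.Y667.BKK.h1f_zero (W := short M K) h3 n h4⟩

lemma formula {n M : ℕ} {d : Fin n → ℤ} (hM : Admissible M) (hd : GoodPair M d) (K : Type)
    [Field K] [NumberField K] (hK : IsMultiquadratic d K) : Formula K M := by
  obtain ⟨x, hx, hg⟩ := hK
  obtain ⟨L, h3, h4, h5⟩ := Pool.Agent.Q6.XM.field_full hM hd.1 hd.2 K x hx hg
  exact ⟨⟨L, h3, h4, (h3 1 (by norm_num)).analyticOrderAt_eq_zero.2 h5⟩,
    selmer hd K ⟨x, hx, hg⟩⟩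

lemma formula' {n : ℕ} {M : ℤ} {d : Fin n → ℤ} (hd : GoodPair M d) (K : Type)
    [Field K] [NumberField K] (hK : IsMultiquadratic d K) : Formula' K M (∏ i, d i) := by
  obtain ⟨x, hx, hg⟩ := hK
  obtain ⟨⟨F, h1, h2⟩, -⟩ := Pool.Agent.Q6.XM.field_inc hd.1 hd.2 K x hx hg
  exact ⟨⟨F, (Pool.Agent.Results.MP_32c55d_nt.MultiquadraticX049.isL_iff F).2 h1, h2⟩,
    selmer hd K ⟨x, hx, hg⟩⟩

lemma prop_mono {P Q : ℕ → Prop} (h : ∀ D, P D → Q D) (X : ℕ) : prop P X ≤ prop Q X := by
  classical
  unfold prop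
  refine div_le_div_of_nonneg_right ?_ (Nat.cast_nonneg _)
  refine Nat.cast_le.2 (Finset.card_le_card ?_)
  intro D hD
  rw [Finset.mem_filter] at hD ⊢
  exact ⟨hD.1, hD.2.1, h D hD.2.2⟩

lemma low (f : ℕ → ℝ) (a : ℝ) (hf : Tendsto f atTop (𝓝 a)) (δ : ℝ) (hδ : 0 < δ) :
    ∃ X₀ : ℕ, ∀ X : ℕ, X₀ ≤ X → a - δ ≤ f X := by
  have h := hf.eventually (lt_mem_nhds (show a - δ < a by linarith))
  obtain ⟨X₀, hX⟩ := eventually_atTop.1 h
  exact ⟨X₀, fun X hX' => (hX X hX').le⟩

end proof

/-- **The order of vanishing formula for `h¹(E_M)(1)` and `p = 2` over multiquadratic fields.** -/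
theorem result :
    (∀ (n M : ℕ) (d : Fin n → ℤ), Admissible M → GoodPair M d →
      ∀ (K : Type) [Field K] [NumberField K], IsMultiquadratic d K →
      Module.finrank ℚ K = 2 ^ n ∧ Formula K M) ∧
    (∀ (n : ℕ) (M : ℤ) (d : Fin n → ℤ), GoodPair M d →
      ∀ (K : Type) [Field K] [NumberField K], IsMultiquadratic d K → Formula' K M (∏ i, d i)) ∧
    (∀ (n : ℕ) (M : ℤ) (d : Fin n → ℤ), Independent d → (∀ i, InClass (d i)) → InClass M →
      Tendsto (prop fun D => GoodPair (M * D) d) atTop (𝓝 (c ^ 2 ^ n)) ∧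
      ∀ (K : Type) [Field K] [NumberField K], IsMultiquadratic d K → ∀ δ : ℝ, 0 < δ →
        ∃ X₀ : ℕ, ∀ X : ℕ, X₀ ≤ X →
          c ^ 2 ^ n - δ ≤ prop (fun D => Formula' K (M * D) (∏ i, d i)) X) ∧
    (∀ (n M : ℕ) (d : Fin n → ℤ), Admissible M → GoodPair M d → (∀ i, InClass (d i)) →
      InClass M →
      Tendsto (prop fun D => GoodPair M (Fin.snoc d (D : ℤ) : Fin (n + 1) → ℤ)) atTop
        (𝓝 (c ^ 2 ^ n)) ∧
      ∀ δ : ℝ, 0 < δ → ∃ X₀ : ℕ, ∀ X : ℕ, X₀ ≤ X → c ^ 2 ^ n - δ ≤ prop (fun D =>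
        ∀ (K : Type) [Field K] [NumberField K],
          IsMultiquadratic (Fin.snoc d (D : ℤ) : Fin (n + 1) → ℤ) K →
          Module.finrank ℚ K = 2 ^ (n + 1) ∧ Formula K M) X) ∧
    GoodPair 1 (![] : Fin 0 → ℤ) ∧ 0.4194 < c ∧ c < 0.4195 := by
  classical
  obtain ⟨h1, -, -, h4, h5, h6, h7, h8⟩ :=
    Pool.Agent.Results.MP_32c55d_nt.MultiquadraticX049.result
  refine ⟨fun n M d hM hd K _ _ hK => ⟨(h1 n M d hM hd K hK).1, formula hM hd K hK⟩,
    fun n M d hd K _ _ hK => formula' hd K hK, fun n M d hi hd hM => ?_,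
    fun n M d hA hg hd hM => ?_, h6, h7, h8⟩
  · refine ⟨h4 n M d hi hd hM, fun K _ _ hK δ hδ => ?_⟩
    obtain ⟨X₀, hX⟩ := low _ _ (h4 n M d hi hd hM) δ hδ
    exact ⟨X₀, fun X hX' => (hX X hX').trans (prop_mono (fun D hD => formula' hD K hK) X)⟩
  · refine ⟨h5 n M d hg hd hM, fun δ hδ => ?_⟩
    obtain ⟨X₀, hX⟩ := low _ _ (h5 n M d hg hd hM) δ hδ
    refine ⟨X₀, fun X hX' => (hX X hX').trans (prop_mono (fun D hD => ?_) X)⟩
    intro K _ _ hK
    exact ⟨(h1 (n + 1) M _ hA hD K hK).1, formula hA hD K hK⟩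

end Pool.Agent.Results.MP_ec4e4b_nt.OrderFormulaX049
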