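import Pool.Agent.Q317.ST.Perm4
import Pool.Agent.Q317.ST.Pad

/-!
# The order formula for the quadratic twists of a motive over all number fields

`Ω` is an algebraic closure of `ℚ`, number fields are the finite extensions of `ℚ` in `Ω`. For a
polarized Chow motive `M` over a number field `k`, a prime `p`, `d ∈ k`, `d ≠ 0`, and a number field
`K ⊇ k` let `M_d` be the twist of `M` by the quadratic character of `k(√d)/k`, `ord d K` the order of
vanishing of `L(s, M_d)` over `K` at `s = 0` and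
`sel d K = dim H¹_f(K, (M_d)_p) - dim H⁰(K, (M_d)_p)`. Both are families as in `IsTwistFamily`.
-/

set_option autoImplicit false

namespace Pool.Agent.Results.MP_ec4e4b_nt.TwistsAndRealPlaces

open scoped Classical
open IntermediateField Pool.Agent.Q317.ST Pool.Agent.Q317.ST.Perm

attribute [-instance] DivisionRing.toRatAlgebra

variable {Ω : Type} [Field Ω] [Algebra ℚ Ω]

/-- `F` is a number field containing `k` that has no embedding in `ℝ` and, for the primes `p ≤ n`,
no embedding in `ℚ_p`. -/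
def NoSmallPlaces (k : IntermediateField ℚ Ω) (n : ℕ) (F : IntermediateField ℚ Ω) : Prop :=
  FiniteDimensional ℚ F ∧ k ≤ F ∧ IsEmpty (F →+* ℝ) ∧
    ∀ (p : ℕ) [Fact p.Prime], p ≤ n → IsEmpty (F →+* ℚ_[p])

/-- Integers `g d K` attached to the quadratic twists `M_d` over the number fields `K ⊇ k`: the
function `g 1` of `K` respects the relations between permutation characters, `M_d` and `M` are
isomorphic over `K` if `√d ∈ K`, and the base change of `M` to `K(√d)` is `M ⊕ M_d` over `K` if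
`√d ∉ K`. -/
structure IsTwistFamily (k : IntermediateField ℚ Ω) (g : k → IntermediateField ℚ Ω → ℤ) :
    Prop where
  respects : Respects k (g 1)
  of_mem : ∀ (d : k) (w : Ω), d ≠ 0 → w ^ 2 = d → ∀ K : IntermediateField ℚ Ω,
    FiniteDimensional ℚ K → k ≤ K → w ∈ K → g d K = g 1 K
  of_not_mem : ∀ (d : k) (w : Ω), d ≠ 0 → w ^ 2 = d → ∀ K : IntermediateField ℚ Ω,
    FiniteDimensional ℚ K → k ≤ K → w ∉ K → g 1 (K ⊔ ℚ⟮w⟯) = g 1 K + g d K

/-- the sign of `v(d)` -/
noncomputable def sgn {k : IntermediateField ℚ Ω} (v : k →+* ℝ) (d : k) : ℚ :=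
  if 0 < v d then 1 else -1

theorem realOver_empty {k K : IntermediateField ℚ Ω} (h : IsEmpty (K →+* ℝ)) (v : k →+* ℝ) :
    realOver k K v = 0 := by
  unfold realOver
  have : IsEmpty {ρ : K →+* ℝ // ∀ (x : K) (hx : (x : Ω) ∈ k), ρ x = v ⟨x, hx⟩} :=
    ⟨fun ρ => h.false ρ.1⟩
  exact Nat.card_of_isEmpty

theorem realOver_self {k : IntermediateField ℚ Ω} (v : k →+* ℝ) : realOver k k v = 1 := by
  unfold realOver
  rw [Nat.card_eq_one_iff_unique]
  refine ⟨⟨fun a b => Subtype.ext (RingHom.ext fun x => ?_)⟩, ⟨⟨v, fun x hx => rfl⟩⟩⟩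
  rw [a.2 x x.2, b.2 x x.2]

theorem result (Ω : Type) [Field Ω] [Algebra ℚ Ω] [IsAlgClosure ℚ Ω] (k : IntermediateField ℚ Ω)
    [FiniteDimensional ℚ k] (ord sel : k → IntermediateField ℚ Ω → ℤ) (hord : IsTwistFamily k ord)
    (hsel : IsTwistFamily k sel) (n : ℕ) (h : ∀ F, NoSmallPlaces k n F → ord 1 F = sel 1 F) :
    (∃ lam : (k →+* ℝ) → ℚ, ∀ d : k, d ≠ 0 → ∀ K : IntermediateField ℚ Ω, FiniteDimensional ℚ K →
      k ≤ K → (ord d K : ℚ) - sel d K = ∑ᶠ v, sgn v d * lam v * (realOver k K v : ℚ)) ∧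
    (∀ d : k, d ≠ 0 → ∀ K : IntermediateField ℚ Ω, FiniteDimensional ℚ K → k ≤ K →
      IsEmpty (K →+* ℝ) → ord d K = sel d K) ∧
    (∀ d : k, d ≠ 0 → (∀ v : k →+* ℝ, 0 < v d) → ∀ K : IntermediateField ℚ Ω,
      FiniteDimensional ℚ K → k ≤ K → ord d K - sel d K = ord 1 K - sel 1 K) ∧
    (∀ D : Set k, (∀ d ∈ D, d ≠ 0 ∧ ord d k = sel d k) →
      (∀ lam : (k →+* ℝ) → ℚ, (∀ d ∈ D, ∑ᶠ v, sgn v d * lam v = 0) → lam = 0) →
      ∀ d : k, d ≠ 0 → ∀ K : IntermediateField ℚ Ω, FiniteDimensional ℚ K → k ≤ K →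
        ord d K = sel d K) ∧
    (Nat.card (k →+* ℝ) = 1 → ∀ d₀ : k, d₀ ≠ 0 → ord d₀ k = sel d₀ k →
      ∀ d : k, d ≠ 0 → ∀ K : IntermediateField ℚ Ω, FiniteDimensional ℚ K → k ≤ K →
        ord d K = sel d K) := by
  let J := {p : Fin (n + 1) // (p : ℕ).Prime}
  have i0 : ∀ j : J, Fact ((j.1 : ℕ).Prime) := fun j => ⟨j.2⟩
  let E : J → Type := fun j => ℚ_[(j.1 : ℕ)]
  have hE : ∀ j : J, CharZero (E j) := fun j => inferInstance
  have hnE : ∀ j : J, StarkNumbers.NonSq (E j) := fun j => exists_nonsq _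
  have hcl : IsAlgClosed Ω := (inferInstance : IsAlgClosure ℚ Ω).isAlgClosed
  have hAlg := (inferInstance : IsAlgClosure ℚ Ω).isAlgebraic
  have := finite_real k
  have := Fintype.ofFinite (k →+* ℝ)
  have hf : Respects k fun K => ord 1 K - sel 1 K := by
    intro ι _ m K hK hrel
    have h1 := hord.respects ι m K hK hrel
    have h2 := hsel.respects ι m K hK hrel
    simp only [smul_sub, Finset.sum_sub_distrib]
    rw [h1, h2, sub_zero]
  obtain ⟨lam, hlam⟩ := exists_lam hf E hE hnE (by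
    intro F hF hkF hR hj
    refine sub_eq_zero.2 (h F ⟨hF, hkF, hR, ?_⟩)
    intro p hp hpn
    exact hj ⟨⟨p, by omega⟩, hp.out⟩)
  have key : ∀ d : k, d ≠ 0 → ∀ K : IntermediateField ℚ Ω, FiniteDimensional ℚ K →
      k ≤ K → (ord d K : ℚ) - sel d K = ∑ᶠ v, sgn v d * lam v * (realOver k K v : ℚ) := by
    intro d hd K hK hk
    obtain ⟨w, hw⟩ := IsAlgClosed.exists_pow_nat_eq (d : Ω) (n := 2) (by norm_num)
    have hwk : w ^ 2 ∈ k := by rw [hw]; exact d.2
    have hdw : (⟨w ^ 2, hwk⟩ : k) = d := Subtype.ext hw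
    have h0 : w ≠ 0 := by
      rintro rfl
      apply hd
      rw [← hdw]
      exact Subtype.ext (zero_pow two_ne_zero)
    have h1 := hlam K hK hk
    rw [finsum_eq_sum_of_fintype] at h1
    rw [finsum_eq_sum_of_fintype]
    by_cases hwK : w ∈ K
    · rw [hord.of_mem d w hd hw K hK hk hwK, hsel.of_mem d w hd hw K hK hk hwK]
      push_cast at h1
      rw [h1]
      refine Finset.sum_congr rfl fun v _ => ?_
      by_cases hr : realOver k K v = 0
      · rw [hr, Nat.cast_zero, mul_zero, mul_zero]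
      · have h2 := realOver_pos hwk h0 hwK v hr
        rw [hdw] at h2
        unfold sgn
        rw [if_pos h2, one_mul]
    · have h2 := hord.of_not_mem d w hd hw K hK hk hwK
      have h3 := hsel.of_not_mem d w hd hw K hK hk hwK
      have hfw : FiniteDimensional ℚ ℚ⟮w⟯ :=
        adjoin.finiteDimensional (hAlg.isAlgebraic w).isIntegral
      have h4 := hlam (K ⊔ ℚ⟮w⟯) inferInstance (hk.trans le_sup_left)
      rw [finsum_eq_sum_of_fintype] at h4
      push_cast at h1 h4
      have h5 : (ord d K : ℚ) - sel d K = ((ord 1 (K ⊔ ℚ⟮w⟯) : ℤ) - sel 1 (K ⊔ ℚ⟮w⟯) : ℚ) -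
          ((ord 1 K : ℚ) - sel 1 K) := by
        rw [h2, h3]
        push_cast
        ring
      rw [h5, h4, h1, ← Finset.sum_sub_distrib]
      refine Finset.sum_congr rfl fun v _ => ?_
      rw [realOver_sqrt hk hwk h0 hwK v, hdw]
      unfold sgn
      split_ifs
      · push_cast
        ring
      · push_cast
        ring
  have part4 : ∀ D : Set k, (∀ d ∈ D, d ≠ 0 ∧ ord d k = sel d k) →
      (∀ lam : (k →+* ℝ) → ℚ, (∀ d ∈ D, ∑ᶠ v, sgn v d * lam v = 0) → lam = 0) →
      ∀ d : k, d ≠ 0 → ∀ K : IntermediateField ℚ Ω, FiniteDimensional ℚ K → k ≤ K →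
        ord d K = sel d K := by
    intro D hD hsp d hd K hK hk
    have h0 : lam = 0 := hsp lam fun d hd => by
      obtain ⟨h1, h2⟩ := hD d hd
      have h3 := key d h1 k inferInstance le_rfl
      simp only [realOver_self, Nat.cast_one, mul_one] at h3
      rw [← h3, h2, sub_self]
    have h1 := key d hd K hK hk
    simp only [h0, Pi.zero_apply, mul_zero, zero_mul, finsum_zero] at h1
    have h2 := sub_eq_zero.1 h1
    exact_mod_cast h2
  refine ⟨⟨lam, key⟩, ?_, ?_, part4, ?_⟩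
  · intro d hd K hK hk hR
    have h1 := key d hd K hK hk
    simp only [realOver_empty hR, Nat.cast_zero, mul_zero, finsum_zero] at h1
    have h2 := sub_eq_zero.1 h1
    exact_mod_cast h2
  · intro d hd hpos K hK hk
    have h1 := key d hd K hK hk
    have h2 := hlam K hK hk
    have h3 : ∀ v : k →+* ℝ, sgn v d = 1 := fun v => if_pos (hpos v)
    simp only [h3, one_mul] at h1
    have h4 : ((ord d K - sel d K : ℤ) : ℚ) = ((ord 1 K - sel 1 K : ℤ) : ℚ) := by
      rw [h2]
      push_cast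
      exact h1
    exact_mod_cast h4
  · intro hcard d₀ hd₀ h0
    obtain ⟨hsub, ⟨v⟩⟩ := Nat.card_eq_one_iff_unique.1 hcard
    refine part4 {d₀} ?_ ?_
    · intro d hd
      rw [Set.mem_singleton_iff] at hd
      rw [hd]
      exact ⟨hd₀, h0⟩
    · intro lam' h1
      have h2 := h1 d₀ rfl
      rw [finsum_eq_single _ v fun w hw => absurd (Subsingleton.elim w v) hw] at h2
      have h3 : sgn v d₀ ≠ 0 := by
        unfold sgn
        split_ifs <;> norm_num
      funext w
      rw [Subsingleton.elim w v]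
      exact (mul_eq_zero.1 h2).resolve_left h3

end Pool.Agent.Results.MP_ec4e4b_nt.TwistsAndRealPlaces
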